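import Pool.Agent.helper94.EU.SpecII

set_option autoImplicit false

open Finset

namespace Pool.Agent.EU

open Pool.Agent.FI Pool.Agent.FJ

private theorem DVS_comm (X D₀ : ℕ) (f : ℕ → ℕ → ℝ) :
    ∑ D ∈ Icc 1 X, ∑ d ∈ D.divisors with D₀ < d, f D d =
      ∑ d ∈ Icc 1 X with D₀ < d, ∑ D ∈ Icc 1 X with d ∣ D, f D d := by
  refine Finset.sum_comm' fun D d => ?_
  simp only [Finset.mem_filter, Finset.mem_Icc, Nat.mem_divisors]
  constructor
  · rintro ⟨⟨h1, h2⟩, ⟨h3, h4⟩, h5⟩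
    have h6 := Nat.le_of_dvd (by omega) h3
    have h7 := Nat.pos_of_dvd_of_pos h3 (by omega)
    exact ⟨⟨⟨h1, h2⟩, h3⟩, ⟨by omega, by omega⟩, h5⟩
  · rintro ⟨⟨⟨h1, h2⟩, h3⟩, ⟨h4, h5⟩, h6⟩
    exact ⟨⟨h1, h2⟩, ⟨h3, by omega⟩, h6⟩

private theorem DVS_cnt (X d : ℕ) : ((((Icc 1 X).filter fun D => d ∣ D).card : ℕ) : ℝ) ≤ (X : ℝ) / d := by
  have h1 : ((Icc 1 X).filter fun D => d ∣ D).card = X / d := by
    rw [← Nat.Ioc_filter_dvd_card_eq_div]
    rfl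
  rw [h1]
  exact Nat.cast_div_le

private theorem DVS_harm (X : ℕ) : ∑ k ∈ Icc 1 X, 1 / (k : ℝ) ≤ 1 + Real.log X := by
  have h1 := harmonic_le_one_add_log X
  rw [harmonic_eq_sum_Icc] at h1
  push_cast at h1
  simpa only [one_div] using h1

private theorem DVS_inv (X d : ℕ) (hd : 1 ≤ d) :
    ∑ D ∈ Icc 1 X with d ∣ D, 1 / (D : ℝ) ≤ (1 + Real.log X) / d := by
  have hd0 : (0 : ℝ) < d := by exact_mod_cast hd
  have h1 : (Icc 1 X).filter (fun D => d ∣ D) ⊆ (Icc 1 X).image (fun k => d * k) := by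
    intro D hD
    rw [Finset.mem_filter, Finset.mem_Icc] at hD
    obtain ⟨⟨h2, h3⟩, k, rfl⟩ := hD
    rw [Finset.mem_image]
    refine ⟨k, ?_, rfl⟩
    rw [Finset.mem_Icc]
    have h4 : k ≠ 0 := by
      rintro rfl
      omega
    have h5 : k ≤ d * k := Nat.le_mul_of_pos_left k (by omega)
    omega
  calc ∑ D ∈ Icc 1 X with d ∣ D, 1 / (D : ℝ) ≤ ∑ D ∈ (Icc 1 X).image (fun k => d * k), 1 / (D : ℝ) :=
        Finset.sum_le_sum_of_subset_of_nonneg h1 (fun i _ _ => by positivity)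
    _ = ∑ k ∈ Icc 1 X, 1 / ((d * k : ℕ) : ℝ) := by
        rw [Finset.sum_image]
        intro a _ b _ hab
        exact Nat.eq_of_mul_eq_mul_left (by omega) hab
    _ = (1 / (d : ℝ)) * ∑ k ∈ Icc 1 X, 1 / (k : ℝ) := by
        rw [Finset.mul_sum]
        refine Finset.sum_congr rfl fun k _ => ?_
        rw [Nat.cast_mul, one_div_mul_one_div]
    _ ≤ (1 / (d : ℝ)) * (1 + Real.log X) := mul_le_mul_of_nonneg_left (DVS_harm X) (by positivity)
    _ = (1 + Real.log X) / d := by ring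

/-- the common last step -/
private theorem DVS_last (C : ℝ) (X D₀ : ℕ) (hX : 1 ≤ X) (hD : 1 ≤ D₀)
    (hP : ∑ k ∈ Icc 1 X, 1 / (Nat.totient k : ℝ) ≤ C * (1 + Real.log X)) (Y : ℝ) (hY : 0 ≤ Y) :
    ∑ d ∈ Icc 1 X with D₀ < d, 1 / (Nat.totient d : ℝ) * (Y / d) ≤ C * (Y * (1 + Real.log X) / D₀) := by
  have hD0 : (0 : ℝ) < D₀ := by exact_mod_cast hD
  calc ∑ d ∈ Icc 1 X with D₀ < d, 1 / (Nat.totient d : ℝ) * (Y / d)
      ≤ ∑ d ∈ Icc 1 X with D₀ < d, 1 / (Nat.totient d : ℝ) * (Y / D₀) := by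
        refine Finset.sum_le_sum fun d hd => ?_
        rw [Finset.mem_filter] at hd
        have h1 : (D₀ : ℝ) ≤ d := by exact_mod_cast hd.2.le
        exact mul_le_mul_of_nonneg_left (div_le_div_of_nonneg_left hY hD0 h1) (by positivity)
    _ ≤ ∑ d ∈ Icc 1 X, 1 / (Nat.totient d : ℝ) * (Y / D₀) :=
        Finset.sum_le_sum_of_subset_of_nonneg (Finset.filter_subset _ _) (fun i _ _ => by positivity)
    _ = (∑ d ∈ Icc 1 X, 1 / (Nat.totient d : ℝ)) * (Y / D₀) := by rw [Finset.sum_mul]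
    _ ≤ (C * (1 + Real.log X)) * (Y / D₀) := mul_le_mul_of_nonneg_right hP (by positivity)
    _ = C * (Y * (1 + Real.log X) / D₀) := by ring

theorem DVS (hPHK : PHK_stmt) : DVS_stmt := by
  obtain ⟨C, hC, hP⟩ := hPHK
  refine ⟨C, hC, fun X D₀ hX hD => ?_⟩
  have hlog : 0 ≤ Real.log X := Real.log_natCast_nonneg X
  constructor
  · rw [DVS_comm]
    refine le_trans (Finset.sum_le_sum fun d hd => ?_) (DVS_last C X D₀ hX hD (hP X hX) X (Nat.cast_nonneg X))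
    rw [Finset.sum_const, nsmul_eq_mul, mul_comm]
    exact mul_le_mul_of_nonneg_left (DVS_cnt X d) (by positivity)
  · have h1 : ∑ D ∈ Icc 1 X, 1 / (D : ℝ) * ∑ d ∈ D.divisors with D₀ < d, 1 / (Nat.totient d : ℝ) =
        ∑ D ∈ Icc 1 X, ∑ d ∈ D.divisors with D₀ < d, 1 / (D : ℝ) * (1 / (Nat.totient d : ℝ)) := by
      refine Finset.sum_congr rfl fun D _ => ?_
      rw [Finset.mul_sum]
    rw [h1, DVS_comm]
    have h2 := DVS_last C X D₀ hX hD (hP X hX) (1 + Real.log X) (by linarith)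
    rw [← sq] at h2
    refine le_trans (Finset.sum_le_sum fun d hd => ?_) h2
    rw [Finset.mem_filter, Finset.mem_Icc] at hd
    rw [← Finset.sum_mul, mul_comm]
    exact mul_le_mul_of_nonneg_left (DVS_inv X d hd.1.1) (by positivity)

end Pool.Agent.EU
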