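import Pool.Agent.helper52.EU.SpecY

set_option autoImplicit false

open Finset

namespace Pool.Agent.EU

open Pool.Agent.FI Pool.Agent.HK Pool.Agent.BP Pool.Agent.YB
open Pool.Agent.CH (nit)

theorem FRQ_lep : 1 ≤ lep := by
  unfold lep
  have h8 : (0 : ℝ) ≤ √8 := Real.sqrt_nonneg _
  have h3 : Real.exp 1 ≤ 3 + √8 := by
    have := Real.exp_one_lt_d9
    linarith
  have h := Real.log_le_log (Real.exp_pos 1) h3
  rwa [Real.log_exp] at h

/-- bounded measurable functions are interval integrable -/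
theorem FRQ_int {G : ℝ → ℂ} (hG : Measurable G) {B : ℝ} (hB : ∀ u, ‖G u‖ ≤ B) {e : ℝ → ℂ} (he : Continuous e)
    (he1 : ∀ u, ‖e u‖ ≤ 1) (a b : ℝ) : IntervalIntegrable (fun u => G u * e u) MeasureTheory.volume a b := by
  have h : ∀ s : Set ℝ, MeasureTheory.volume s ≠ ⊤ → MeasureTheory.IntegrableOn (fun u => G u * e u) s MeasureTheory.volume := by
    intro s hs
    refine MeasureTheory.Measure.integrableOn_of_bounded (M := B) hs (hG.mul he.measurable).aestronglyMeasurable ?_
    refine Filter.Eventually.of_forall fun u => ?_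
    have h0 : 0 ≤ B := (norm_nonneg _).trans (hB u)
    rw [norm_mul]
    calc ‖G u‖ * ‖e u‖ ≤ B * 1 := mul_le_mul (hB u) (he1 u) (norm_nonneg _) h0
      _ = B := mul_one B
  exact ⟨h _ (by simp), h _ (by simp)⟩

/-- Bessel's inequality -/
theorem FRQ_bessel {a b : ℝ} (hab : a < b) (F : Finset ℤ) (e : ℤ → ℝ → ℂ) (he : ∀ m, Continuous (e m))
    (he1 : ∀ m u, ‖e m u‖ = 1)
    (ho : ∀ m m', m ≠ m' → ∫ u in a..b, e m u * (starRingEnd ℂ) (e m' u) = 0)
    {G : ℝ → ℂ} (hG : Measurable G) {B : ℝ} (hB : ∀ u, ‖G u‖ ≤ B) :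
    ∑ m ∈ F, ‖∫ u in a..b, G u * e m u‖ ^ 2 ≤ (b - a) * ∫ u in a..b, ‖G u‖ ^ 2 := by
  set A : ℤ → ℂ := fun m => ∫ u in a..b, G u * e m u with hA
  set T : ℝ → ℂ := fun u => ∑ m ∈ F, (starRingEnd ℂ) (A m) * e m u with hT
  have hba : 0 < b - a := by linarith
  have hTc : Continuous T := by
    refine continuous_finsetSum _ fun m _ => ?_
    exact continuous_const.mul (he m)
  -- the sum as an integral
  have h1 : ((∑ m ∈ F, ‖A m‖ ^ 2 : ℝ) : ℂ) = ∫ u in a..b, G u * T u := by
    have h : ∀ u, G u * T u = ∑ m ∈ F, (starRingEnd ℂ) (A m) * (G u * e m u) := by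
      intro u
      rw [hT]
      simp only
      rw [Finset.mul_sum]
      exact Finset.sum_congr rfl fun m _ => by ring
    simp only [h]
    rw [intervalIntegral.integral_finsetSum]
    · push_cast
      refine Finset.sum_congr rfl fun m _ => ?_
      rw [intervalIntegral.integral_const_mul]
      have : (∫ u in a..b, G u * e m u) = A m := rfl
      rw [this, mul_comm, Complex.mul_conj']
    · intro m _
      exact (FRQ_int hG hB (he m) (fun u => (he1 m u).le) a b).const_mul _
  have h2 : ∫ u in a..b, ‖T u‖ ^ 2 = (b - a) * ∑ m ∈ F, ‖A m‖ ^ 2 := by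
    have h : ((∫ u in a..b, ‖T u‖ ^ 2 : ℝ) : ℂ) = (((b - a) * ∑ m ∈ F, ‖A m‖ ^ 2 : ℝ) : ℂ) := by
      rw [← intervalIntegral.integral_ofReal]
      have h3 : ∀ u, ((‖T u‖ ^ 2 : ℝ) : ℂ) = ∑ m ∈ F, ∑ m' ∈ F,
          (starRingEnd ℂ) (A m) * A m' * (e m u * (starRingEnd ℂ) (e m' u)) := by
        intro u
        push_cast
        rw [← Complex.mul_conj', hT]
        simp only
        rw [map_sum, Finset.sum_mul_sum]
        refine Finset.sum_congr rfl fun m _ => Finset.sum_congr rfl fun m' _ => ?_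
        rw [map_mul, Complex.conj_conj]
        ring
      simp only [h3]
      have hc : ∀ m m', Continuous fun u => (starRingEnd ℂ) (A m) * A m' * (e m u * (starRingEnd ℂ) (e m' u)) := by
        intro m m'
        exact continuous_const.mul ((he m).mul (Complex.continuous_conj.comp (he m')))
      rw [intervalIntegral.integral_finsetSum]
      · have h4 : ∀ m ∈ F, (∫ u in a..b, ∑ m' ∈ F, (starRingEnd ℂ) (A m) * A m' * (e m u * (starRingEnd ℂ) (e m' u))) =
            ((b - a : ℝ) : ℂ) * ((‖A m‖ ^ 2 : ℝ) : ℂ) := by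
          intro m hm
          rw [intervalIntegral.integral_finsetSum]
          · rw [Finset.sum_eq_single_of_mem m hm]
            · rw [intervalIntegral.integral_const_mul]
              have h5 : ∀ u, e m u * (starRingEnd ℂ) (e m u) = 1 := by
                intro u
                rw [Complex.mul_conj', he1]
                norm_num
              simp only [h5]
              rw [intervalIntegral.integral_const, mul_comm ((starRingEnd ℂ) (A m)), Complex.mul_conj']
              rw [Complex.real_smul]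
              push_cast
              ring
            · intro m' _ hm'
              rw [intervalIntegral.integral_const_mul, ho m m' (Ne.symm hm'), mul_zero]
          · intro m' _
            exact (hc m m').intervalIntegrable a b
        rw [Finset.sum_congr rfl h4, ← Finset.mul_sum]
        push_cast
        ring
      · intro m _
        exact (continuous_finsetSum _ fun m' _ => hc m m').intervalIntegrable a b
    exact_mod_cast h
  -- measurability
  have hG2 : IntervalIntegrable (fun u => ‖G u‖ ^ 2) MeasureTheory.volume a b := by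
    have h : ∀ s : Set ℝ, MeasureTheory.volume s ≠ ⊤ → MeasureTheory.IntegrableOn (fun u => ‖G u‖ ^ 2) s MeasureTheory.volume := by
      intro s hs
      refine MeasureTheory.Measure.integrableOn_of_bounded (M := B ^ 2) hs (hG.norm.pow_const 2).aestronglyMeasurable ?_
      refine Filter.Eventually.of_forall fun u => ?_
      rw [Real.norm_of_nonneg (by positivity)]
      exact pow_le_pow_left₀ (norm_nonneg _) (hB u) 2
    exact ⟨h _ (by simp), h _ (by simp)⟩
  have hT2 : IntervalIntegrable (fun u => ‖T u‖ ^ 2) MeasureTheory.volume a b :=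
    (hTc.norm.pow 2).intervalIntegrable a b
  have h3 : ∑ m ∈ F, ‖A m‖ ^ 2 ≤ ∫ u in a..b, ((b - a) / 2 * ‖G u‖ ^ 2 + 1 / (2 * (b - a)) * ‖T u‖ ^ 2) := by
    have h4 : ∑ m ∈ F, ‖A m‖ ^ 2 = ‖∫ u in a..b, G u * T u‖ := by
      rw [← h1, Complex.norm_real, Real.norm_of_nonneg (Finset.sum_nonneg fun m _ => by positivity)]
    rw [h4]
    refine intervalIntegral.norm_integral_le_of_norm_le hab.le (Filter.Eventually.of_forall fun u _ => ?_) ((hG2.const_mul _).add (hT2.const_mul _))
    rw [norm_mul]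
    have h5 : (b - a) / 2 * ‖G u‖ ^ 2 + 1 / (2 * (b - a)) * ‖T u‖ ^ 2 - ‖G u‖ * ‖T u‖ =
        ((b - a) * ‖G u‖ - ‖T u‖) ^ 2 / (2 * (b - a)) := by
      field_simp
      ring
    have h6 : 0 ≤ ((b - a) * ‖G u‖ - ‖T u‖) ^ 2 / (2 * (b - a)) := by positivity
    linarith
  rw [intervalIntegral.integral_add (hG2.const_mul _) (hT2.const_mul _), intervalIntegral.integral_const_mul,
    intervalIntegral.integral_const_mul, h2] at h3
  have h7 : 1 / (2 * (b - a)) * ((b - a) * ∑ m ∈ F, ‖A m‖ ^ 2) = 1 / 2 * ∑ m ∈ F, ‖A m‖ ^ 2 := by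
    field_simp
  rw [h7] at h3
  linarith

/-- the integral of an indicator -/
theorem FRQ_ind {a b c d : ℝ} (hac : a ≤ c) (hcd : c ≤ d) (hdb : d ≤ b) (e : ℝ → ℂ) :
    ∫ u in a..b, (Set.Ico c d).indicator e u = ∫ u in c..d, e u := by
  rw [intervalIntegral.integral_of_le (hac.trans (hcd.trans hdb)), MeasureTheory.setIntegral_indicator measurableSet_Ico,
    intervalIntegral.integral_of_le hcd]
  refine MeasureTheory.setIntegral_congr_set ?_
  have h : (Set.Ioc a b ∩ Set.Ico c d : Set ℝ) =ᵐ[MeasureTheory.volume] (Set.Ioc a b ∩ Set.Ioc c d : Set ℝ) :=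
    Filter.EventuallyEq.inter (Filter.EventuallyEq.refl _ _) MeasureTheory.Ico_ae_eq_Ioc
  have h2 : (Set.Ioc a b ∩ Set.Ioc c d : Set ℝ) = Set.Ioc c d :=
    Set.inter_eq_right.2 (Set.Ioc_subset_Ioc hac hdb)
  rwa [h2] at h

theorem FRQ_shift (κ Y h : ℝ) : ∫ u in (Y - h)..Y, Complex.exp (((κ * u : ℝ) : ℂ) * Complex.I) =
    Complex.exp (((κ * Y : ℝ) : ℂ) * Complex.I) * ∫ u in (-h)..0, Complex.exp (((κ * u : ℝ) : ℂ) * Complex.I) := by
  have h1 := intervalIntegral.integral_comp_add_right (a := -h) (b := 0) (fun u => Complex.exp (((κ * u : ℝ) : ℂ) * Complex.I)) Y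
  have h2 : -h + Y = Y - h := by ring
  rw [h2, zero_add] at h1
  rw [← h1, ← intervalIntegral.integral_const_mul]
  refine intervalIntegral.integral_congr fun u _ => ?_
  rw [← Complex.exp_add]
  congr 1
  push_cast
  ring

theorem FRQ_low {κ h : ℝ} (hh : 0 < h) (hk : |κ * h| ≤ Real.pi / 2) :
    h / 2 ≤ ‖∫ u in (-h)..0, Complex.exp (((κ * u : ℝ) : ℂ) * Complex.I)‖ := by
  have hc : Continuous fun u : ℝ => Complex.exp (((κ * u : ℝ) : ℂ) * Complex.I) := by fun_prop
  have h1 : (∫ u in (-h)..0, Complex.exp (((κ * u : ℝ) : ℂ) * Complex.I)).re = ∫ u in (-h)..0, Real.cos (κ * u) := by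
    have := Complex.reCLM.intervalIntegral_comp_comm (hc.intervalIntegrable (μ := MeasureTheory.volume) (-h) 0)
    simp only [Complex.reCLM_apply, Complex.exp_ofReal_mul_I_re] at this
    exact this.symm
  have h2 : ∫ u in (-h)..0, (1 - κ ^ 2 / 2 * u ^ 2) ≤ ∫ u in (-h)..0, Real.cos (κ * u) := by
    refine intervalIntegral.integral_mono_on (by linarith) ?_ ?_ fun u _ => ?_
    · exact Continuous.intervalIntegrable (by fun_prop) _ _
    · exact Continuous.intervalIntegrable (by fun_prop) _ _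
    · have := Real.one_sub_sq_div_two_le_cos (x := κ * u)
      calc 1 - κ ^ 2 / 2 * u ^ 2 = 1 - (κ * u) ^ 2 / 2 := by ring
        _ ≤ _ := this
  have h3 : ∫ u in (-h)..0, (1 - κ ^ 2 / 2 * u ^ 2) = h - (κ * h) ^ 2 * h / 6 := by
    rw [intervalIntegral.integral_sub (by simp) (Continuous.intervalIntegrable (by fun_prop) _ _),
      intervalIntegral.integral_const_mul, integral_pow, intervalIntegral.integral_const]
    simp
    ring
  have h4 : (κ * h) ^ 2 ≤ (Real.pi / 2) ^ 2 := by
    rw [← sq_abs]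
    exact pow_le_pow_left₀ (abs_nonneg _) hk 2
  have h5 : (Real.pi / 2) ^ 2 ≤ 3 := by
    have h6 := Real.pi_lt_d2
    have h7 := Real.pi_pos
    nlinarith
  have h6 : (κ * h) ^ 2 * h ≤ 3 * h := mul_le_mul_of_nonneg_right (h4.trans h5) hh.le
  calc h / 2 ≤ h - (κ * h) ^ 2 * h / 6 := by linarith
    _ ≤ _ := by rw [← h3]; exact h2
    _ = (∫ u in (-h)..0, Complex.exp (((κ * u : ℝ) : ℂ) * Complex.I)).re := h1.symm
    _ ≤ _ := Complex.re_le_norm _

/-- orthogonality over an interval of length `4 lep` -/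
theorem FRQ_orth (α a : ℝ) (k : ℕ) (m m' : ℤ) (hm : m ≠ m') :
    ∫ u in a..(a + 2 * k * lep), Complex.exp (((fr α m * u : ℝ) : ℂ) * Complex.I) *
      (starRingEnd ℂ) (Complex.exp (((fr α m' * u : ℝ) : ℂ) * Complex.I)) = 0 := by
  have hl : 0 < lep := lt_of_lt_of_le one_pos FRQ_lep
  set c : ℂ := ((Real.pi * (m - m' : ℤ) / lep : ℝ) : ℂ) * Complex.I with hc
  have hc0 : c ≠ 0 := by
    rw [hc]
    refine mul_ne_zero ?_ Complex.I_ne_zero
    rw [Complex.ofReal_ne_zero]
    refine div_ne_zero (mul_ne_zero Real.pi_ne_zero ?_) hl.ne'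
    have : m - m' ≠ 0 := sub_ne_zero.2 hm
    exact_mod_cast this
  have h1 : ∀ u : ℝ, Complex.exp (((fr α m * u : ℝ) : ℂ) * Complex.I) *
      (starRingEnd ℂ) (Complex.exp (((fr α m' * u : ℝ) : ℂ) * Complex.I)) = Complex.exp (c * u) := by
    intro u
    rw [← Complex.exp_conj, ← Complex.exp_add]
    congr 1
    rw [map_mul, Complex.conj_ofReal, Complex.conj_I, hc, fr, fr]
    push_cast
    field_simp
    ring
  simp only [h1]
  rw [integral_exp_mul_complex hc0]
  have h2 : Complex.exp (c * ((a + 2 * k * lep : ℝ) : ℂ)) = Complex.exp (c * a) := by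
    have h3 : c * ((a + 2 * k * lep : ℝ) : ℂ) = c * a + ((k * (m - m') : ℤ) : ℂ) * (2 * Real.pi * Complex.I) := by
      rw [hc]
      have : (lep : ℂ) ≠ 0 := by exact_mod_cast hl.ne'
      push_cast
      field_simp
    rw [h3, Complex.exp_add, Complex.exp_int_mul_two_pi_mul_I, mul_one]
  rw [h2, sub_self, zero_div]

open scoped Classical in
/-- **FRQ** -/
theorem FRQ : FRQ_stmt := by
  have hl1 := FRQ_lep
  have hl : 0 < lep := lt_of_lt_of_le one_pos hl1
  refine ⟨16 * lep, by positivity, fun S f α h M₁ hS hα0 hα1 hM hh hhM => ?_⟩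
  have hM' : (1 : ℝ) ≤ M₁ := by exact_mod_cast hM
  have hh4 : h ≤ 1 / 4 := by nlinarith
  set G : ℝ → ℂ := fun y => ∑ z ∈ S with (y < yy z ∧ yy z ≤ y + h), f z with hG
  have hGi : ∀ y, G y = ∑ z ∈ S, (Set.Ico (yy z - h) (yy z)).indicator (fun _ => f z) y := by
    intro y
    rw [hG]
    simp only
    rw [Finset.sum_filter]
    refine Finset.sum_congr rfl fun z _ => ?_
    by_cases hz : y < yy z ∧ yy z ≤ y + h
    · rw [if_pos hz, Set.indicator_of_mem (Set.mem_Ico.2 ⟨by linarith [hz.2], hz.1⟩)]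
    · rw [if_neg hz, Set.indicator_of_notMem]
      intro h'
      rw [Set.mem_Ico] at h'
      exact hz ⟨h'.2, by linarith [h'.1]⟩
  have hGm : Measurable G := by
    have : G = fun y => ∑ z ∈ S, (Set.Ico (yy z - h) (yy z)).indicator (fun _ => f z) y := funext hGi
    rw [this]
    exact Finset.measurable_sum _ fun z _ => measurable_const.indicator measurableSet_Ico
  have hGB : ∀ y, ‖G y‖ ≤ ∑ z ∈ S, ‖f z‖ := by
    intro y
    rw [hG]
    simp only
    refine (norm_sum_le _ _).trans ?_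
    exact Finset.sum_le_sum_of_subset_of_nonneg (Finset.filter_subset _ _) fun z _ _ => norm_nonneg _
  -- Bessel on `[-3 lep, lep]`
  have hb := FRQ_bessel (a := -3 * lep) (b := lep) (by linarith) (Icc (-(M₁ : ℤ)) M₁)
    (fun m u => Complex.exp (((fr α m * u : ℝ) : ℂ) * Complex.I)) (fun m => by fun_prop)
    (fun m u => Complex.norm_exp_ofReal_mul_I _) (fun m m' hm => by
      have h1 := FRQ_orth α (-3 * lep) 2 m m' hm
      have h2 : -3 * lep + 2 * (2 : ℕ) * lep = lep := by push_cast; ring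
      rw [h2] at h1
      exact h1) hGm hGB
  -- the integrals
  have hI : ∀ m : ℤ, ∫ u in (-3 * lep)..lep, G u * Complex.exp (((fr α m * u : ℝ) : ℂ) * Complex.I) =
      (∑ z ∈ S, f z * Complex.exp (((fr α m * yy z : ℝ) : ℂ) * Complex.I)) *
        ∫ u in (-h)..0, Complex.exp (((fr α m * u : ℝ) : ℂ) * Complex.I) := by
    intro m
    set e : ℝ → ℂ := fun u => Complex.exp (((fr α m * u : ℝ) : ℂ) * Complex.I) with he
    have hec : Continuous e := by
      rw [he]
      fun_prop
    have h1 : ∀ u, G u * e u = ∑ z ∈ S, f z * (Set.Ico (yy z - h) (yy z)).indicator e u := by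
      intro u
      rw [hGi, Finset.sum_mul]
      refine Finset.sum_congr rfl fun z _ => ?_
      by_cases hz : u ∈ Set.Ico (yy z - h) (yy z)
      · rw [Set.indicator_of_mem hz, Set.indicator_of_mem hz]
      · rw [Set.indicator_of_notMem hz, Set.indicator_of_notMem hz]
        ring
    have h0 : ∫ u in (-3 * lep)..lep, G u * Complex.exp (((fr α m * u : ℝ) : ℂ) * Complex.I) =
        ∫ u in (-3 * lep)..lep, ∑ z ∈ S, f z * (Set.Ico (yy z - h) (yy z)).indicator e u :=
      intervalIntegral.integral_congr fun u _ => h1 u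
    rw [h0, intervalIntegral.integral_finsetSum, Finset.sum_mul]
    · refine Finset.sum_congr rfl fun z hz => ?_
      have hz' := abs_le.1 (hS z hz)
      rw [intervalIntegral.integral_const_mul, FRQ_ind (by linarith [hz'.1]) (by linarith) hz'.2, he,
        FRQ_shift]
      ring
    · intro z _
      refine IntervalIntegrable.const_mul ?_ _
      have h2 : ∀ s : Set ℝ, MeasureTheory.volume s ≠ ⊤ →
          MeasureTheory.IntegrableOn ((Set.Ico (yy z - h) (yy z)).indicator e) s MeasureTheory.volume := by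
        intro s hs
        refine MeasureTheory.Measure.integrableOn_of_bounded (M := 1) hs
          (hec.measurable.indicator measurableSet_Ico).aestronglyMeasurable ?_
        refine Filter.Eventually.of_forall fun u => ?_
        refine (norm_indicator_le_norm_self _ _).trans ?_
        rw [he]
        simp only
        rw [Complex.norm_exp_ofReal_mul_I]
      exact ⟨h2 _ (by simp), h2 _ (by simp)⟩
  have hfr : ∀ m ∈ Icc (-(M₁ : ℤ)) M₁, |fr α m * h| ≤ Real.pi / 2 := by
    intro m hm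
    rw [Finset.mem_Icc] at hm
    have h1 : |(m : ℝ)| ≤ M₁ := by
      have : |m| ≤ (M₁ : ℤ) := abs_le.2 hm
      exact_mod_cast this
    rw [fr, abs_mul, abs_of_pos hh, abs_div, abs_of_pos (by positivity : (0 : ℝ) < 2 * lep)]
    have h2 : |α + 2 * Real.pi * m| ≤ 4 * Real.pi * M₁ := by
      refine (abs_add_le _ _).trans ?_
      rw [abs_mul, abs_of_nonneg hα0, abs_of_pos (by positivity : (0 : ℝ) < 2 * Real.pi)]
      have : 2 * Real.pi * |(m : ℝ)| ≤ 2 * Real.pi * M₁ := mul_le_mul_of_nonneg_left h1 (by positivity)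
      have h3 : 2 * Real.pi * 1 ≤ 2 * Real.pi * M₁ := mul_le_mul_of_nonneg_left hM' (by positivity)
      linarith
    have h3 : |α + 2 * Real.pi * m| / (2 * lep) ≤ 2 * Real.pi * M₁ := by
      rw [div_le_iff₀ (by positivity)]
      have h4 : 4 * Real.pi * M₁ * 1 ≤ 4 * Real.pi * M₁ * lep := mul_le_mul_of_nonneg_left hl1 (by positivity)
      linarith
    calc |α + 2 * Real.pi * m| / (2 * lep) * h ≤ 2 * Real.pi * M₁ * h := mul_le_mul_of_nonneg_right h3 hh.le
      _ = 2 * Real.pi * (h * M₁) := by ring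
      _ ≤ 2 * Real.pi * (1 / 4) := mul_le_mul_of_nonneg_left hhM (by positivity)
      _ = Real.pi / 2 := by ring
  have hsum : (h / 2) ^ 2 * ∑ m ∈ Icc (-(M₁ : ℤ)) M₁, ‖∑ z ∈ S, f z * Complex.exp (((fr α m * yy z : ℝ) : ℂ) * Complex.I)‖ ^ 2 ≤
      4 * lep * ∫ u in (-3 * lep)..lep, ‖G u‖ ^ 2 := by
    have h1 : lep - -3 * lep = 4 * lep := by ring
    rw [h1] at hb
    refine le_trans ?_ hb
    rw [Finset.mul_sum]
    refine Finset.sum_le_sum fun m hm => ?_
    rw [hI m, norm_mul, mul_pow, mul_comm]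
    refine mul_le_mul_of_nonneg_left ?_ (by positivity)
    exact pow_le_pow_left₀ (by positivity) (FRQ_low hh (hfr m hm)) 2
  -- the integral over the real line
  have hR : ∫ u in (-3 * lep)..lep, ‖G u‖ ^ 2 ≤ ∫ y : ℝ, ‖G y‖ ^ 2 := by
    rw [intervalIntegral.integral_of_le (by linarith)]
    refine MeasureTheory.setIntegral_le_integral ?_ (Filter.Eventually.of_forall fun u => by positivity)
    have hsupp : Function.support (fun y => ‖G y‖ ^ 2) ⊆ Set.Icc (-3 * lep) lep := by
      intro y hy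
      rw [Function.mem_support] at hy
      by_contra hy'
      apply hy
      have : G y = 0 := by
        rw [hG]
        simp only
        refine Finset.sum_eq_zero fun z hz => ?_
        exfalso
        rw [Finset.mem_filter] at hz
        have hz' := abs_le.1 (hS z hz.1)
        exact hy' ⟨by linarith [hz.2.2, hz'.1], by linarith [hz.2.1, hz'.2]⟩
      rw [this]
      simp
    rw [← MeasureTheory.integrableOn_iff_integrable_of_support_subset hsupp]
    refine MeasureTheory.Measure.integrableOn_of_bounded (M := (∑ z ∈ S, ‖f z‖) ^ 2) (by simp)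
      (hGm.norm.pow_const 2).aestronglyMeasurable ?_
    refine Filter.Eventually.of_forall fun u => ?_
    rw [Real.norm_of_nonneg (by positivity)]
    exact pow_le_pow_left₀ (norm_nonneg _) (hGB u) 2
  have h9 : (h / 2) ^ 2 * ∑ m ∈ Icc (-(M₁ : ℤ)) M₁, ‖∑ z ∈ S, f z * Complex.exp (((fr α m * yy z : ℝ) : ℂ) * Complex.I)‖ ^ 2 ≤
      4 * lep * ∫ y : ℝ, ‖G y‖ ^ 2 := hsum.trans (mul_le_mul_of_nonneg_left hR (by positivity))
  have h10 : 16 * lep / h ^ 2 * ∫ y : ℝ, ‖G y‖ ^ 2 = (4 * lep * ∫ y : ℝ, ‖G y‖ ^ 2) / (h / 2) ^ 2 := by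
    field_simp
    ring
  rw [h10, le_div_iff₀ (by positivity), mul_comm]
  exact h9

end Pool.Agent.EU
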